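import Pool.Agent.H93.BD.Targets

/-!
# MP_ee74d2_an, module WT of the board bdc_modules
-/

set_option autoImplicit false

open MeasureTheory
open scoped ENNReal NNReal

namespace Pool.Agent.H65.BD

open Pool.Agent.H93.BD

theorem one_shift {R a b c : ℝ} (hR : 0 < R) (N : ℕ) (ha : 0 ≤ a) (hb : 0 ≤ b) (hc : 0 ≤ c)
    (h : a ≤ b + c) :
    ((1 + b / R) ^ N)⁻¹ ≤ (1 + c / R) ^ N * ((1 + a / R) ^ N)⁻¹ := by
  have hb' : 0 ≤ b / R := div_nonneg hb hR.le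
  have hc' : 0 ≤ c / R := div_nonneg hc hR.le
  have ha' : 0 ≤ a / R := div_nonneg ha hR.le
  have h1 : a / R ≤ b / R + c / R := by
    rw [← add_div]
    exact div_le_div_of_nonneg_right h hR.le
  have h2 : 1 + a / R ≤ (1 + b / R) * (1 + c / R) := by nlinarith [mul_nonneg hb' hc']
  have h3 : (1 + a / R) ^ N ≤ (1 + b / R) ^ N * (1 + c / R) ^ N := by
    rw [← mul_pow]
    exact pow_le_pow_left₀ (by positivity) h2 N
  have h4 : 0 < (1 + a / R) ^ N := by positivity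
  have h5 : 0 < (1 + b / R) ^ N := by positivity
  rw [← div_eq_mul_inv, le_div_iff₀ h4, inv_mul_le_iff₀ h5]
  exact h3

theorem pf_WT : T_WT := by
  intro m R hR x z
  unfold kw gw
  rw [← ENNReal.ofReal_mul (by positivity)]
  refine ENNReal.ofReal_le_ofReal ?_
  simp only [smul_zero, add_zero, Prod.fst_add, Prod.snd_add]
  have h1 : ((1 + ‖x.1 + z.1‖ / R) ^ (m + 2))⁻¹ ≤
      (1 + ‖z.1‖ / R) ^ (m + 2) * ((1 + ‖x.1‖ / R) ^ (m + 2))⁻¹ := by
    refine one_shift hR _ (norm_nonneg _) (norm_nonneg _) (norm_nonneg _) ?_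
    have := norm_sub_le (x.1 + z.1) z.1
    simpa using this
  have h2 : ((1 + |x.2 + z.2| / R) ^ (m + 2))⁻¹ ≤
      (1 + |z.2| / R) ^ (m + 2) * ((1 + |x.2| / R) ^ (m + 2))⁻¹ := by
    refine one_shift hR _ (abs_nonneg _) (abs_nonneg _) (abs_nonneg _) ?_
    have := abs_sub (x.2 + z.2) z.2
    simpa using this
  have hK : 0 ≤ (R ^ m * R)⁻¹ := by positivity
  calc (R ^ m * R)⁻¹ * ((1 + ‖x.1 + z.1‖ / R) ^ (m + 2))⁻¹ * ((1 + |x.2 + z.2| / R) ^ (m + 2))⁻¹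
      ≤ (R ^ m * R)⁻¹ * ((1 + ‖z.1‖ / R) ^ (m + 2) * ((1 + ‖x.1‖ / R) ^ (m + 2))⁻¹) *
        ((1 + |z.2| / R) ^ (m + 2) * ((1 + |x.2| / R) ^ (m + 2))⁻¹) := by
        refine mul_le_mul (mul_le_mul_of_nonneg_left h1 hK) h2 (by positivity) (by positivity)
    _ = _ := by ring

theorem gw_scale (m N : ℕ) {S T l1 l2 : ℝ} (hS : 0 < S) (hT : 0 < T) (h1 : 0 < l1) (h1' : l1 ≤ 1)
    (h2 : 0 < l2) (h2' : l2 ≤ 1) (c : E m) (x : X m) :
    gw m N (l1 * S) (l2 * T) c x ≤ ENNReal.ofReal ((l1 ^ m * l2)⁻¹) * gw m N S T c x := by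
  unfold gw
  rw [← ENNReal.ofReal_mul (by positivity)]
  refine ENNReal.ofReal_le_ofReal ?_
  have e1 : ((l1 * S) ^ m * (l2 * T))⁻¹ = (l1 ^ m * l2)⁻¹ * (S ^ m * T)⁻¹ := by
    rw [← mul_inv, mul_pow]
    ring_nf
  have key : ∀ a r l : ℝ, 0 ≤ a → 0 < r → 0 < l → l ≤ 1 →
      ((1 + a / (l * r)) ^ N)⁻¹ ≤ ((1 + a / r) ^ N)⁻¹ := by
    intro a r l ha hr hl hl'
    have h3 : a / r ≤ a / (l * r) := by
      apply div_le_div_of_nonneg_left ha (by positivity)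
      nlinarith
    have h4 : 0 ≤ a / r := by positivity
    apply inv_anti₀ (by positivity)
    exact pow_le_pow_left₀ (by positivity) (by linarith) N
  rw [e1]
  have k1 := key ‖x.1 + (2 * x.2) • c‖ S l1 (norm_nonneg _) hS h1 h1'
  have k2 := key |x.2| T l2 (abs_nonneg _) hT h2 h2'
  calc (l1 ^ m * l2)⁻¹ * (S ^ m * T)⁻¹ * ((1 + ‖x.1 + (2 * x.2) • c‖ / (l1 * S)) ^ N)⁻¹ *
        ((1 + |x.2| / (l2 * T)) ^ N)⁻¹
      ≤ (l1 ^ m * l2)⁻¹ * (S ^ m * T)⁻¹ * ((1 + ‖x.1 + (2 * x.2) • c‖ / S) ^ N)⁻¹ *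
        ((1 + |x.2| / T) ^ N)⁻¹ := by
        refine mul_le_mul (mul_le_mul_of_nonneg_left k1 (by positivity)) k2 (by positivity)
          (by positivity)
    _ = _ := by ring

theorem pf_RPP (hREP : T_REP) : T_RPP := by
  intro m q hq C0
  obtain ⟨C, hC⟩ := hREP m (3 * (m + 2)) q hq
  obtain ⟨C1, hC1⟩ : ∃ C1 : ℝ, C1 = max C0 1 := ⟨_, rfl⟩
  have hC1a : C0 ≤ C1 := hC1 ▸ le_max_left _ _
  have hC1b : 1 ≤ C1 := hC1 ▸ le_max_right _ _
  have hC1p : 0 < C1 := by linarith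
  set l1 : ℝ := 1 / C1 with hl1
  set l2 : ℝ := 1 / (C1 + C1 ^ 2) with hl2
  have hl1p : 0 < l1 := by positivity
  have hl2p : 0 < l2 := by positivity
  have hl1' : l1 ≤ 1 := by
    rw [hl1, div_le_one hC1p]
    exact hC1b
  have hl2' : l2 ≤ 1 := by
    rw [hl2, div_le_one (by positivity)]
    nlinarith
  refine ⟨C * (l1 ^ m * l2)⁻¹, ?_⟩
  intro S hS c g hg x
  have hSp : 0 < S := by linarith
  have h := hC (l1 * S) (l2 * S ^ 2) (by positivity) (by positivity) c c (-‖c‖ ^ 2) g hg.int ?_ x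
  · refine h.trans ?_
    rw [ENNReal.ofReal_mul' (by positivity), mul_assoc]
    refine mul_le_mul_right ?_ _
    unfold cv
    rw [← lintegral_const_mul' _ _ ENNReal.ofReal_ne_top]
    refine lintegral_mono fun z => ?_
    have h1 := gw_scale m (3 * (m + 2)) hSp (pow_pos hSp 2) hl1p hl1' hl2p hl2' c (x - z)
    calc ‖FI g z‖ₑ ^ q * gw m (3 * (m + 2)) (l1 * S) (l2 * S ^ 2) c (x - z)
        ≤ ‖FI g z‖ₑ ^ q * (ENNReal.ofReal ((l1 ^ m * l2)⁻¹) *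
          gw m (3 * (m + 2)) S (S ^ 2) c (x - z)) := mul_le_mul_right h1 _
      _ = _ := by
          unfold pk
          ring
  · intro z hz
    obtain ⟨h1, h2⟩ := hg.supp z hz
    have h3 : ‖z.1 - c‖ ≤ C1 / S := by
      refine h1.trans ?_
      rw [mul_one_div]
      exact div_le_div_of_nonneg_right hC1a hSp.le
    constructor
    · refine h3.trans (le_of_eq ?_)
      rw [hl1]
      field_simp
    · have h4 : |z.2 - ‖z.1‖ ^ 2| ≤ C1 / S ^ 2 := by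
        refine h2.trans ?_
        have : C0 * (1 / S) ^ 2 = C0 / S ^ 2 := by
          field_simp
        rw [this]
        exact div_le_div_of_nonneg_right hC1a (by positivity)
      have h5 : ‖z.1 - c‖ ^ 2 ≤ (C1 / S) ^ 2 := pow_le_pow_left₀ (norm_nonneg _) h3 2
      have h6 : ‖z.1 - c‖ ^ 2 = ‖z.1‖ ^ 2 - 2 * inner ℝ z.1 c + ‖c‖ ^ 2 := norm_sub_sq_real _ _
      have h7 : z.2 - 2 * inner ℝ c z.1 - -‖c‖ ^ 2 = (z.2 - ‖z.1‖ ^ 2) + ‖z.1 - c‖ ^ 2 := by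
        rw [h6, real_inner_comm]
        ring
      rw [h7]
      have h8 : |z.2 - ‖z.1‖ ^ 2 + ‖z.1 - c‖ ^ 2| ≤ C1 / S ^ 2 + (C1 / S) ^ 2 := by
        refine (abs_add_le _ _).trans (add_le_add h4 ?_)
        rw [abs_of_nonneg (by positivity)]
        exact h5
      refine h8.trans (le_of_eq ?_)
      rw [hl2]
      field_simp

end Pool.Agent.H65.BD
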